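import Pool.Agent.Lead.Ek.Defs
import Pool.Agent.Helper22.Evas.Reduction

/-! # From a non-evasive invariant complex to the negation of weak evasiveness -/

set_option autoImplicit false

namespace Pool.Agent.Helper22.Ek

open Finset Pool.Agent.Lead.Ek Pool.Agent.Helper22.Evas

section

variable {α : Type} [DecidableEq α]

theorem depth_card (Q : Finset α) : ∀ g : (α → Bool) → Bool,
    (∀ x y : α → Bool, (∀ i ∈ Q, x i = y i) → g x = g y) → Depth Q.card g := by
  induction Q using Finset.induction_on with
  | empty => exact fun g h => Depth.const _ _ fun x y => h x y (by simp)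
  | insert a Q ha ih =>
    intro g h
    rw [Finset.card_insert_of_notMem ha]
    refine Depth.node _ _ a (ih _ ?_) (ih _ ?_)
    · intro x y hxy
      apply h
      intro i hi
      by_cases hia : i = a
      · subst hia; simp
      · rw [Function.update_of_ne hia, Function.update_of_ne hia]
        exact hxy i (Finset.mem_of_mem_insert_of_ne hi hia)
    · intro x y hxy
      apply h
      intro i hi
      by_cases hia : i = a
      · subst hia; simp
      · rw [Function.update_of_ne hia, Function.update_of_ne hia]
        exact hxy i (Finset.mem_of_mem_insert_of_ne hi hia)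

theorem NE_nonempty {K : Set (Finset α)} {R : Finset α} (h : NE K R) : R.Nonempty := by
  cases h with
  | irr _ _ x hx _ => exact ⟨x, hx⟩
  | split _ _ x hx _ _ => exact ⟨x, hx⟩

open Classical in
theorem depth_of_NE {K : Set (Finset α)} {R : Finset α} (h : NE K R) :
    Depth (R.card - 1) (fun x : α → Bool => decide (R.filter (fun i => x i = true) ∉ K)) := by
  induction h with
  | irr K R x0 hx h =>
    have hc : (R.erase x0).card = R.card - 1 := Finset.card_erase_of_mem hx
    rw [← hc]
    refine depth_card (R.erase x0) _ ?_
    intro x y hxy
    have key : ∀ z : α → Bool, (R.filter (fun i => z i = true) ∈ K ↔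
        (R.erase x0).filter (fun i => z i = true) ∈ K) := by
      intro z
      by_cases hz : z x0 = true
      · have : R.filter (fun i => z i = true) =
            insert x0 ((R.erase x0).filter (fun i => z i = true)) := by
          ext i
          simp only [Finset.mem_filter, Finset.mem_insert, Finset.mem_erase]
          by_cases hi : i = x0
          · subst hi; simp [hx, hz]
          · simp [hi]
        rw [this]
        exact (h _ (Finset.filter_subset _ _)).symm
      · have : R.filter (fun i => z i = true) =
            (R.erase x0).filter (fun i => z i = true) := by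
          ext i
          simp only [Finset.mem_filter, Finset.mem_erase]
          by_cases hi : i = x0
          · subst hi; simp [hz]
          · simp [hi]
        rw [this]
    have e : (R.erase x0).filter (fun i => x i = true) =
        (R.erase x0).filter (fun i => y i = true) := by
      apply Finset.filter_congr
      intro i hi
      rw [hxy i hi]
    apply decide_eq_decide.mpr
    rw [key x, key y, e]
  | split K R x0 hx h0 h1 ih0 ih1 =>
    have hc : (R.erase x0).card = R.card - 1 := Finset.card_erase_of_mem hx
    have hpos : 0 < (R.erase x0).card := Finset.card_pos.mpr (NE_nonempty h0)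
    obtain ⟨m, hm⟩ : ∃ m, R.card - 1 = m + 1 := ⟨(R.erase x0).card - 1, by omega⟩
    have hm' : (R.erase x0).card - 1 = m := by omega
    rw [hm] at *
    rw [hm'] at ih0 ih1
    refine Depth.node _ _ x0 ?_ ?_
    · have e : (fun x : α → Bool => decide (R.filter
          (fun i => (Function.update x x0 false) i = true) ∉ K)) =
          fun x => decide ((R.erase x0).filter (fun i => x i = true) ∉ K) := by
        funext x
        congr 3
        ext i
        simp only [Finset.mem_filter, Finset.mem_erase]
        by_cases hi : i = x0
        · subst hi; simp
        · simp [hi]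
      rw [e]; exact ih0
    · have e : (fun x : α → Bool => decide (R.filter
          (fun i => (Function.update x x0 true) i = true) ∉ K)) =
          fun x => decide ((R.erase x0).filter (fun i => x i = true) ∉
            {X : Finset α | insert x0 X ∈ K}) := by
        funext x
        have e1 : R.filter (fun i => (Function.update x x0 true) i = true) =
            insert x0 ((R.erase x0).filter (fun i => x i = true)) := by
          ext i
          simp only [Finset.mem_filter, Finset.mem_insert, Finset.mem_erase]
          by_cases hi : i = x0
          · subst hi; simp [hx]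
          · simp [hi]
        rw [e1]
        rfl
      rw [e]; exact ih1

end

/-- Packet P1 (link to the decision tree library). -/
theorem depth : P1_depth := by
  intro α _ _ K _ h
  have := depth_of_NE h
  rw [Finset.card_univ] at this
  convert this

section Group

variable {G : Type} [Group G] [Fintype G] [DecidableEq G]

open Classical in
/-- The Boolean function of a complex. -/
noncomputable def fn (K : Set (Finset G)) : (G → Bool) → Bool :=
  fun x => decide (univ.filter (fun i => x i = true) ∉ K)

omit [Fintype G] in
theorem LInv_iff {K : Set (Finset G)} (hL : LInv K) (g : G) (X : Finset G) :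
    X.image (fun x => g * x) ∈ K ↔ X ∈ K := by
  refine ⟨fun h => ?_, hL g X⟩
  have := hL g⁻¹ _ h
  rw [Finset.image_image] at this
  have e : ((fun x => g⁻¹ * x) ∘ fun x => g * x) = (id : G → G) := by
    funext x; simp
  rw [e, Finset.image_id] at this
  exact this

open Classical in
theorem good_of_NE {K : Set (Finset G)} (hK : Cx K) (hL : LInv K) (h0 : (∅ : Finset G) ∈ K)
    (h1 : (univ : Finset G) ∉ K) (h : NE K univ) : Good (fn K) (Fintype.card G - 1) := by
  refine ⟨?_, ?_, ?_, ?_, ?_⟩
  · intro x y hxy
    unfold fn
    by_cases hy : univ.filter (fun i => y i = true) ∈ K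
    · have hx : univ.filter (fun i => x i = true) ∈ K := by
        refine hK _ hy _ ?_
        intro i hi
        simp only [Finset.mem_filter, Finset.mem_univ, true_and] at hi ⊢
        have := hxy i
        rw [hi] at this
        exact top_le_iff.mp this
      simp [hx, hy]
    · simp [hy]
  · unfold fn
    simp [h0]
  · unfold fn
    simp [h1]
  · intro i j
    refine ⟨Equiv.mulLeft (j * i⁻¹), by simp, fun x => ?_⟩
    unfold fn
    apply decide_eq_decide.mpr
    rw [not_iff_not]
    have e : univ.filter (fun g => x g = true) =
        (univ.filter (fun g => (x ∘ (Equiv.mulLeft (j * i⁻¹))) g = true)).image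
          (fun g => (j * i⁻¹) * g) := by
      ext g
      simp only [Finset.mem_filter, Finset.mem_univ, true_and, Finset.mem_image,
        Function.comp_apply, Equiv.coe_mulLeft]
      constructor
      · intro hg
        refine ⟨(j * i⁻¹)⁻¹ * g, ?_, by rw [mul_inv_cancel_left]⟩
        rw [mul_inv_cancel_left]; exact hg
      · rintro ⟨a, ha, rfl⟩
        exact ha
    rw [e, LInv_iff hL]
  · have := depth_of_NE h
    rw [Finset.card_univ] at this
    exact this

theorem final_of_NE {K : Set (Finset G)} (hK : Cx K) (hL : LInv K) (h0 : (∅ : Finset G) ∈ K)
    (h1 : (univ : Finset G) ∉ K) (h : NE K univ) :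
    ¬ (∀ ε : ℝ, 0 < ε → ∃ N : ℕ, ∀ n : ℕ, N ≤ n →
    ∀ f : (Fin n → Bool) → Bool, Monotone f → (∃ x y, f x ≠ f y) →
      (∀ i j : Fin n, ∃ σ : Equiv.Perm (Fin n), σ i = j ∧
          ∀ x : Fin n → Bool, f (x ∘ σ) = f x) →
      ∀ k : ℕ,
        (∀ P : ℕ → ((Fin n → Bool) → Bool) → Prop,
          (∀ (m : ℕ) (g : (Fin n → Bool) → Bool), (∀ x y, g x = g y) → P m g) →
          (∀ (m : ℕ) (g : (Fin n → Bool) → Bool) (i : Fin n),
             P m (fun x => g (Function.update x i false)) →
             P m (fun x => g (Function.update x i true)) → P (m + 1) g) →
          P k f) →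
        (n : ℝ) ^ (1 - ε) ≤ (k : ℝ)) := by
  have hg := good_of_NE hK hL h0 h1 h
  have hg' := hg.transport (Fintype.equivFin G)
  refine refute ?_ hg'
  by_contra hlt
  have hc : Fintype.card G - 1 = 0 := by omega
  have hd := hg'.depth
  have hb := hg'.bot
  have ht := hg'.top
  rw [hc] at hd
  have hconst : ∀ x y, Pool.Agent.Helper22.Evas.transport (Fintype.equivFin G) (fn K) x =
      Pool.Agent.Helper22.Evas.transport (Fintype.equivFin G) (fn K) y := by
    cases hd with
    | const _ _ h => exact h
  rw [hconst _ (fun _ => true), ht] at hb
  exact absurd hb (by simp)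

end Group

end Pool.Agent.Helper22.Ek
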